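import Mathlib

/-!
# Combinatorial core of the class K theorem (MP_472c72_co)

`g` is a symmetric relation with loops on a finite set `S`; `g a b` (`a ≠ b`) is adjacency, `g a a`
means that `a` is looped; `co g` is the complement with loops switched.  Main results:
`AxA.cl` (type A: every component is a single unlooped vertex or has a looped dominating vertex) and
`mainB` (type B: dominating looped vertex, or isolated unlooped vertex, or a leaf pair, or `S` is a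
path with four vertices).
-/

namespace Pool.Agent.H34CP

variable {U : Type*}

/-- Complement with loops switched. -/
def co (g : U → U → Prop) : U → U → Prop := fun a b => ¬ g a b

/-- Induced path `d - u - t - e`, ends unlooped, middle vertices looped. -/
structure PT (g : U → U → Prop) (d u t e : U) : Prop where
  du : g d u
  ut : g u t
  te : g t e
  dt : ¬ g d t
  de : ¬ g d e
  ue : ¬ g u e
  dd : ¬ g d d
  uu : g u u
  tt : g t t
  ee : ¬ g e e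

/-- The patterns `{d,u}`, `{u,e}`, `{d,t}`, `{t,e}`. -/
def Pt (g : U → U → Prop) (d u t e k : U) : Prop :=
  (g d k ∧ g u k ∧ ¬ g t k ∧ ¬ g e k) ∨ (¬ g d k ∧ g u k ∧ ¬ g t k ∧ g e k) ∨
  (g d k ∧ ¬ g u k ∧ g t k ∧ ¬ g e k) ∨ (¬ g d k ∧ ¬ g u k ∧ g t k ∧ g e k)

/-- First alternative of E4. -/
def Br (g : U → U → Prop) (S : Finset U) (d u t e : U) : Prop :=
  ∃ k ∈ S, Pt g d u t e k ∧ ∀ p ∈ S,
    (¬ g d p → ¬ g u p → ¬ g t p → ¬ g e p → ¬ g p k) ∧ (g d p → g u p → g t p → g e p → g p k)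

def E2 (g : U → U → Prop) (S : Finset U) : Prop :=
  ∀ a ∈ S, ∀ b ∈ S, g a b → ¬ g a a → ¬ g b b →
    ∃ u ∈ S, g u u ∧ g u a ∧ g u b ∧ (∀ v ∈ S, g a v → g b v → g u v) ∧
      ∀ v ∈ S, g u v → g a v ∨ g b v

def E2w (g : U → U → Prop) (S : Finset U) : Prop :=
  ∀ a ∈ S, ∀ b ∈ S, g a b → ¬ g a a → ¬ g b b → (∃ c ∈ S, ¬ g a c ∧ ¬ g b c) →
    ∃ u ∈ S, g u u ∧ g u a ∧ g u b ∧ (∀ v ∈ S, g a v → g b v → g u v) ∧
      ∀ v ∈ S, g u v → g a v ∨ g b v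

def E4A (g : U → U → Prop) (S : Finset U) : Prop :=
  ∀ d ∈ S, ∀ u ∈ S, ∀ t ∈ S, ∀ e ∈ S, PT g d u t e → Br g S d u t e

def E4B (g : U → U → Prop) (S : Finset U) : Prop :=
  ∀ d ∈ S, ∀ u ∈ S, ∀ t ∈ S, ∀ e ∈ S, PT g d u t e →
    Br g S d u t e ∨ ∀ v ∈ S, ¬ (g d v ↔ g e v) ∨ ¬ (g u v ↔ g t v)

/-- Common part of types A and B. -/
structure Ax0 (g : U → U → Prop) (S : Finset U) : Prop where
  symm : ∀ a b, g a b → g b a
  e2 : E2 g S
  f2 : E2w (co g) S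
  e4 : E4B g S

/-- Type A. -/
structure AxA (g : U → U → Prop) (S : Finset U) : Prop where
  symm : ∀ a b, g a b → g b a
  e2 : E2 g S
  f2 : E2w (co g) S
  e4 : E4A g S

/-- Type B. -/
structure AxB (g : U → U → Prop) (S : Finset U) : Prop where
  symm : ∀ a b, g a b → g b a
  e2 : E2 g S
  f2 : E2 (co g) S
  e4 : E4B g S

/-- Every component is a single unlooped vertex or has a dominating looped vertex. -/
def Cl (g : U → U → Prop) (S : Finset U) : Prop :=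
  ∀ p ∈ S, (∀ v ∈ S, ¬ g p v) ∨ ∃ u ∈ S, g u p ∧ ∀ v ∈ S, ∀ w ∈ S, g u v → g v w → g u w

def P4free (g : U → U → Prop) (S : Finset U) : Prop :=
  ∀ a ∈ S, ∀ b ∈ S, ∀ c ∈ S, ∀ d ∈ S, g a b → g b c → g c d → ¬ g a c → ¬ g a d → g b d

/-- Leaf pair. -/
def Leaf (g : U → U → Prop) (S : Finset U) : Prop :=
  ∃ a ∈ S, ∃ b ∈ S, a ≠ b ∧ (∀ v ∈ S, v ≠ a → v ≠ b → (g a v ↔ g b v)) ∧
    ¬ (g a b ∧ ¬ g a a ∧ ¬ g b b) ∧ ¬ (¬ g a b ∧ g a a ∧ g b b)

theorem AxA.ax0 {g : U → U → Prop} {S : Finset U} (h : AxA g S) : Ax0 g S :=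
  ⟨h.symm, h.e2, h.f2, fun d hd u hu t ht e he h1 => Or.inl (h.e4 d hd u hu t ht e he h1)⟩

theorem AxB.ax0 {g : U → U → Prop} {S : Finset U} (h : AxB g S) : Ax0 g S :=
  ⟨h.symm, h.e2, fun a ha b hb h1 h2 h3 _ => h.f2 a ha b hb h1 h2 h3, h.e4⟩

theorem co_co (g : U → U → Prop) : co (co g) = g := by
  funext a b
  simp [co]

theorem PT.co {g : U → U → Prop} (hs : ∀ a b, g a b → g b a) {d u t e : U} (h : PT g d u t e) :
    PT (co g) u e d t where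
  du := h.ue
  ut := fun h1 => h.de (hs _ _ h1)
  te := h.dt
  dt := fun h1 => h1 (hs _ _ h.du)
  de := fun h1 => h1 h.ut
  ue := fun h1 => h1 (hs _ _ h.te)
  dd := fun h1 => h1 h.uu
  uu := h.ee
  tt := h.dd
  ee := fun h1 => h1 h.tt

open Classical in
/-- Neighbours of `c`. -/
noncomputable def nb (g : U → U → Prop) (S : Finset U) (c : U) : Finset U :=
  S.filter (fun v => v ≠ c ∧ g c v)

open Classical in
/-- Non-neighbours of `c`. -/
noncomputable def nz (g : U → U → Prop) (S : Finset U) (c : U) : Finset U :=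
  S.filter (fun v => v ≠ c ∧ ¬ g c v)

theorem mem_nb {g : U → U → Prop} {S : Finset U} {c v : U} :
    v ∈ nb g S c ↔ v ∈ S ∧ v ≠ c ∧ g c v := by
  simp [nb]

theorem mem_nz {g : U → U → Prop} {S : Finset U} {c v : U} :
    v ∈ nz g S c ↔ v ∈ S ∧ v ≠ c ∧ ¬ g c v := by
  simp [nz]

theorem card_nb {g : U → U → Prop} {S : Finset U} {c : U} (hc : c ∈ S) :
    (nb g S c).card < S.card := by
  apply Finset.card_lt_card
  refine ⟨fun v hv => (mem_nb.1 hv).1, fun h => ?_⟩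
  exact (mem_nb.1 (h hc)).2.1 rfl

theorem card_nz {g : U → U → Prop} {S : Finset U} {c : U} (hc : c ∈ S) :
    (nz g S c).card < S.card := by
  apply Finset.card_lt_card
  refine ⟨fun v hv => (mem_nz.1 hv).1, fun h => ?_⟩
  exact (mem_nz.1 (h hc)).2.1 rfl

theorem Ax0.nb {g : U → U → Prop} {S : Finset U} (h : Ax0 g S) {x : U} (hx : x ∈ S) :
    AxA (co g) (nb g S x) := by
  have hs := h.symm
  have hs' : ∀ a b, co g a b → co g b a := fun a b h1 h2 => h1 (hs _ _ h2)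
  refine ⟨hs', ?_, ?_, ?_⟩
  · intro a ha b hb hab haa hbb
    obtain ⟨ha0, -, hxa⟩ := mem_nb.1 ha
    obtain ⟨hb0, -, hxb⟩ := mem_nb.1 hb
    obtain ⟨u, hu, huu, hua, hub, hi1, hi2⟩ := h.f2 a ha0 b hb0 hab haa hbb
      ⟨x, hx, not_not.2 (hs _ _ hxa), not_not.2 (hs _ _ hxb)⟩
    refine ⟨u, mem_nb.2 ⟨hu, ?_, ?_⟩, huu, hua, hub, fun v hv => hi1 v (mem_nb.1 hv).1,
      fun v hv => hi2 v (mem_nb.1 hv).1⟩
    · rintro rfl
      exact hua hxa
    · by_contra hc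
      rcases hi2 x hx (fun h1 => hc (hs _ _ h1)) with h1 | h1
      · exact h1 (hs _ _ hxa)
      · exact h1 (hs _ _ hxb)
  · rw [co_co]
    rintro a ha b hb hab haa hbb ⟨z, hz, hza, hzb⟩
    obtain ⟨ha0, -, hxa⟩ := mem_nb.1 ha
    obtain ⟨hb0, -, hxb⟩ := mem_nb.1 hb
    obtain ⟨hz0, -, hxz⟩ := mem_nb.1 hz
    obtain ⟨u, hu, huu, hua, hub, hi1, hi2⟩ := h.e2 a ha0 b hb0 hab haa hbb
    refine ⟨u, mem_nb.2 ⟨hu, ?_, hs _ _ (hi1 x hx (hs _ _ hxa) (hs _ _ hxb))⟩, huu, hua, hub,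
      fun v hv => hi1 v (mem_nb.1 hv).1, fun v hv => hi2 v (mem_nb.1 hv).1⟩
    rintro rfl
    rcases hi2 z hz0 hxz with h1 | h1
    · exact hza h1
    · exact hzb h1
  · intro d hd u hu t ht e he hp
    obtain ⟨hd0, -, hxd⟩ := mem_nb.1 hd
    obtain ⟨hu0, -, hxu⟩ := mem_nb.1 hu
    obtain ⟨ht0, -, hxt⟩ := mem_nb.1 ht
    obtain ⟨he0, -, hxe⟩ := mem_nb.1 he
    have hp' : PT g u e d t := by
      have := hp.co hs'
      rwa [co_co] at this
    rcases h.e4 u hu0 e he0 d hd0 t ht0 hp' with ⟨k, hk, hk1, hk2⟩ | hb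
    · have hxk : g x k := (hk2 x hx).2 (hs _ _ hxu) (hs _ _ hxe) (hs _ _ hxd) (hs _ _ hxt)
      refine ⟨k, mem_nb.2 ⟨hk, ?_, hxk⟩, ?_, ?_⟩
      · rintro rfl
        rcases hk1 with h1 | h1 | h1 | h1
        · exact h1.2.2.1 (hs _ _ hxd)
        · exact h1.1 (hs _ _ hxu)
        · exact h1.2.1 (hs _ _ hxe)
        · exact h1.1 (hs _ _ hxu)
      · unfold Pt co
        rcases hk1 with ⟨c1, c2, c3, c4⟩ | ⟨c1, c2, c3, c4⟩ | ⟨c1, c2, c3, c4⟩ | ⟨c1, c2, c3, c4⟩ <;>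
          simp [c1, c2, c3, c4]
      · intro p hp
        have h3 := hk2 p (mem_nb.1 hp).1
        refine ⟨fun a1 a2 a3 a4 => not_not.2 (h3.2 (not_not.1 a2) (not_not.1 a4) (not_not.1 a1)
          (not_not.1 a3)), fun a1 a2 a3 a4 => h3.1 a2 a4 a1 a3⟩
    · exfalso
      rcases hb x hx with h1 | h1
      · exact h1 ⟨fun _ => hs _ _ hxt, fun _ => hs _ _ hxu⟩
      · exact h1 ⟨fun _ => hs _ _ hxd, fun _ => hs _ _ hxe⟩

theorem Ax0.nz {g : U → U → Prop} {S : Finset U} (h : Ax0 g S) {x : U} (hx : x ∈ S) :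
    AxA g (nz g S x) := by
  have hs := h.symm
  refine ⟨hs, ?_, ?_, ?_⟩
  · intro a ha b hb hab haa hbb
    obtain ⟨ha0, -, hxa⟩ := mem_nz.1 ha
    obtain ⟨hb0, -, hxb⟩ := mem_nz.1 hb
    obtain ⟨u, hu, huu, hua, hub, hi1, hi2⟩ := h.e2 a ha0 b hb0 hab haa hbb
    refine ⟨u, mem_nz.2 ⟨hu, ?_, ?_⟩, huu, hua, hub,
      fun v hv => hi1 v (mem_nz.1 hv).1, fun v hv => hi2 v (mem_nz.1 hv).1⟩
    · rintro rfl
      exact hxa hua
    · intro h1
      rcases hi2 x hx (hs _ _ h1) with h2 | h2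
      · exact hxa (hs _ _ h2)
      · exact hxb (hs _ _ h2)
  · rintro a ha b hb hab haa hbb ⟨z, hz, hza, hzb⟩
    obtain ⟨ha0, -, hxa⟩ := mem_nz.1 ha
    obtain ⟨hb0, -, hxb⟩ := mem_nz.1 hb
    obtain ⟨hz0, -, hxz⟩ := mem_nz.1 hz
    obtain ⟨u, hu, huu, hua, hub, hi1, hi2⟩ := h.f2 a ha0 b hb0 hab haa hbb ⟨z, hz0, hza, hzb⟩
    have hza' : g a z := not_not.1 hza
    have hzb' : g b z := not_not.1 hzb
    refine ⟨u, mem_nz.2 ⟨hu, ?_, ?_⟩, huu, hua, hub,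
      fun v hv => hi1 v (mem_nz.1 hv).1, fun v hv => hi2 v (mem_nz.1 hv).1⟩
    · rintro rfl
      rcases hi2 z hz0 hxz with h1 | h1
      · exact h1 hza'
      · exact h1 hzb'
    · intro h1
      exact hi1 x hx (fun h2 => hxa (hs _ _ h2)) (fun h2 => hxb (hs _ _ h2)) (hs _ _ h1)
  · intro d hd u hu t ht e he hp
    obtain ⟨hd0, -, hxd⟩ := mem_nz.1 hd
    obtain ⟨hu0, -, hxu⟩ := mem_nz.1 hu
    obtain ⟨ht0, -, hxt⟩ := mem_nz.1 ht
    obtain ⟨he0, -, hxe⟩ := mem_nz.1 he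
    have f1 : ¬ g d x := fun h => hxd (hs _ _ h)
    have f2 : ¬ g u x := fun h => hxu (hs _ _ h)
    have f3 : ¬ g t x := fun h => hxt (hs _ _ h)
    have f4 : ¬ g e x := fun h => hxe (hs _ _ h)
    rcases h.e4 d hd0 u hu0 t ht0 e he0 hp with ⟨k, hk, hk1, hk2⟩ | hb
    · refine ⟨k, mem_nz.2 ⟨hk, ?_, (hk2 x hx).1 f1 f2 f3 f4⟩, hk1, fun p hp => hk2 p (mem_nz.1 hp).1⟩
      rintro rfl
      rcases hk1 with h1 | h1 | h1 | h1
      · exact f1 h1.1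
      · exact f2 h1.2.1
      · exact f1 h1.1
      · exact f3 h1.2.2.1
    · exfalso
      rcases hb x hx with h1 | h1
      · exact h1 ⟨fun h2 => absurd h2 f1, fun h2 => absurd h2 f4⟩
      · exact h1 ⟨fun h2 => absurd h2 f2, fun h2 => absurd h2 f3⟩

/-- `R_d ⊆ R_u` once every unlooped element of `R_d \ R_u` has a neighbour in `R_d \ R_u`. -/
theorem ystep {g : U → U → Prop} {S : Finset U} (hs : ∀ a b, g a b → g b a) {d u : U}
    (hA : Cl (co g) (nb g S d)) (hu : u ∈ S) (hud : g u d) (hne : u ≠ d)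
    (hb : ∀ z ∈ S, g d z → ¬ g u z → ¬ g z z → ∃ w ∈ S, g d w ∧ ¬ g u w ∧ g w z) :
    ∀ z ∈ S, g d z → g u z := by
  intro z hz hdz
  by_contra huz
  have hun : u ∈ nb g S d := mem_nb.2 ⟨hu, hne, hs _ _ hud⟩
  have hzn : z ∈ nb g S d := mem_nb.2 ⟨hz, fun h => huz (h ▸ hud), hdz⟩
  rcases hA z hzn with h1 | ⟨x, hx, h1, h2⟩
  · exact h1 u hun (fun h => huz (hs _ _ h))
  · have hx1 : ¬ g x u := h2 z hzn u hun h1 (fun h => huz (hs _ _ h))
    have hx2 : ¬ g x x := h2 z hzn x hx h1 (fun h => h1 (hs _ _ h))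
    obtain ⟨hx0, -, hdx⟩ := mem_nb.1 hx
    obtain ⟨w, hw, hdw, huw, hwx⟩ := hb x hx0 hdx (fun h => hx1 (hs _ _ h)) hx2
    have hwd : w ≠ d := fun h => huw (h ▸ hud)
    exact h2 u hun w (mem_nb.2 ⟨hw, hwd, hdw⟩) hx1 huw (hs _ _ hwx)

/-- Lemma 4. -/
theorem lem4 {g : U → U → Prop} {S : Finset U} (hs : ∀ a b, g a b → g b a) (he2 : E2 g S)
    (hA : ∀ c ∈ S, Cl (co g) (nb g S c)) (hP : ∀ c ∈ S, P4free (co g) (nb g S c))
    {u t d : U} (hu : u ∈ S) (ht : t ∈ S) (huu : g u u) (htu : g t u)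
    (hmax : ∀ w ∈ S, g w w → (∀ v ∈ S, g u v → g w v) → ∀ v ∈ S, g w v → g u v)
    (htu' : t ≠ u)
    (hd : d ∈ nb g S u) (hdt : ¬ g d t)
    (hcl : ∀ v ∈ nb g S u, ∀ w ∈ nb g S u, ¬ g d v → ¬ g v w → ¬ g d w) :
    ¬ g d d ∧ (∀ z ∈ S, g d z → g u z) ∧ ∀ v ∈ S, g u v → g d v → g t v := by
  obtain ⟨hd0, hdu, hud⟩ := mem_nb.1 hd
  have htn : t ∈ nb g S u := mem_nb.2 ⟨ht, htu', hs _ _ htu⟩
  have hdd : ¬ g d d := hcl t htn d hd hdt (fun h => hdt (hs _ _ h))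
  have hN : ∀ v ∈ S, g u v → g d v → g t v := by
    intro v hv huv hdv
    by_cases hvu : v = u
    · rw [hvu]; exact htu
    · by_contra htv
      exact hcl t htn v (mem_nb.2 ⟨hv, hvu, huv⟩) hdt htv hdv
  refine ⟨hdd, ?_, hN⟩
  apply ystep hs (hA d hd0) hu hud (fun h => hdd (h ▸ huu))
  intro z hz hdz huz hzz
  obtain ⟨w, hw, hww, hwd, hwz, hi1, hi2⟩ := he2 d hd0 z hz hdz hdd hzz
  refine ⟨w, hw, hs _ _ hwd, ?_, hwz⟩
  intro huw
  have htw : g t w := hN w hw huw (hs _ _ hwd)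
  have htz : g t z := by
    rcases hi2 t ht (hs _ _ htw) with h1 | h1
    · exact absurd h1 hdt
    · exact hs _ _ h1
  have hwu : w ≠ u := fun h => huz (h ▸ hwz)
  have h3 : ∃ v ∈ S, g u v ∧ ¬ g w v := by
    by_contra hc
    push Not at hc
    exact huz (hmax w hw hww hc z hz hwz)
  obtain ⟨v, hv, huv, hwv⟩ := h3
  have hvu : v ≠ u := fun h => hwv (h ▸ (hs _ _ huw))
  have hvn : v ∈ nb g S u := mem_nb.2 ⟨hv, hvu, huv⟩
  have hwn : w ∈ nb g S u := mem_nb.2 ⟨hw, hwu, huw⟩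
  rcases hA u hu w hwn with h1 | ⟨c, hc, h1, h2⟩
  · exact h1 v hvn hwv
  · obtain ⟨hc0, hcu, huc⟩ := mem_nb.1 hc
    have hcc : ¬ g c c := h2 w hwn c hc h1 (fun h => h1 (hs _ _ h))
    have hwc : ¬ g w c := fun h => h1 (hs _ _ h)
    have hdc : g d c := by
      by_contra h
      exact hcl c hc w hwn h h1 (hs _ _ hwd)
    have htc : g t c := hN c hc0 huc hdc
    have hzc : ¬ g z c := fun h => hwc (hi1 c hc0 hdc h)
    have m1 : u ∈ nb g S t := mem_nb.2 ⟨hu, fun h => htu' h.symm, htu⟩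
    have m2 : z ∈ nb g S t := mem_nb.2 ⟨hz, fun h => huz (h ▸ (hs _ _ htu)), htz⟩
    have m3 : c ∈ nb g S t := mem_nb.2 ⟨hc0, fun h => hdt (h ▸ hdc), htc⟩
    have m4 : w ∈ nb g S t := mem_nb.2 ⟨hw, fun h => hdt (h ▸ (hs _ _ hwd)), htw⟩
    exact hP t ht u m1 z m2 c m3 w m4 huz hzc h1 (not_not.2 huc) (not_not.2 huw) (hs _ _ hwz)

/-- The final path. -/
structure FT (g : U → U → Prop) (S : Finset U) (d u t e : U) : Prop where
  hd : d ∈ S
  hu : u ∈ S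
  ht : t ∈ S
  he : e ∈ S
  pt : PT g d u t e
  p1 : ∀ v ∈ S, g d v → g u v
  p2 : ∀ v ∈ S, g e v → g t v
  p3 : ∀ v ∈ S, g u v → g d v → g t v
  p4 : ∀ v ∈ S, g t v → g e v → g u v
  n1 : ∀ v ∈ S, ∀ w ∈ S, g u v → g u w → ¬ g d v → g d w → g v w
  n2 : ∀ v ∈ S, ∀ w ∈ S, g t v → g t w → ¬ g e v → g e w → g v w

open Classical in
theorem exists_max {g : U → U → Prop} {S : Finset U} {x : U} (hx : x ∈ S) (hxx : g x x) :
    ∃ u ∈ S, g u u ∧ (∀ v ∈ S, g x v → g u v) ∧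
      ∀ w ∈ S, g w w → (∀ v ∈ S, g u v → g w v) → ∀ v ∈ S, g w v → g u v := by
  obtain ⟨u, hu, hmax⟩ := Finset.exists_max_image
    (S.filter (fun u => g u u ∧ ∀ v ∈ S, g x v → g u v)) (fun u => (S.filter (fun v => g u v)).card)
    ⟨x, by simp [hx, hxx]⟩
  simp only [Finset.mem_filter] at hu hmax
  refine ⟨u, hu.1, hu.2.1, hu.2.2, ?_⟩
  intro w hw hww h1 v hv hwv
  have h2 := hmax w ⟨hw, hww, fun v hv h => h1 v hv (hu.2.2 v hv h)⟩
  have h3 : S.filter (fun v => g u v) ⊆ S.filter (fun v => g w v) := by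
    intro v hv
    simp only [Finset.mem_filter] at hv ⊢
    exact ⟨hv.1, h1 v hv.1 hv.2⟩
  have h4 := Finset.eq_of_subset_of_card_le h3 h2
  have h5 : v ∈ S.filter (fun v => g w v) := by simp [hv, hwv]
  rw [← h4] at h5
  exact (Finset.mem_filter.1 h5).2

/-- The final path exists if some maximal looped row is not closed. -/
theorem exists_FT {g : U → U → Prop} {S : Finset U} (hs : ∀ a b, g a b → g b a) (he2 : E2 g S)
    (hA : ∀ c ∈ S, Cl (co g) (nb g S c)) (hP : ∀ c ∈ S, P4free (co g) (nb g S c))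
    {u : U} (hu : u ∈ S) (huu : g u u)
    (hmax : ∀ w ∈ S, g w w → (∀ v ∈ S, g u v → g w v) → ∀ v ∈ S, g w v → g u v)
    {v₀ z₀ : U} (hv₀ : v₀ ∈ S) (hz₀ : z₀ ∈ S) (h1 : g u v₀) (h2 : g v₀ z₀) (h3 : ¬ g u z₀) :
    ∃ d t e, FT g S d u t e := by
  -- step 1
  have s1 : ∃ t' ∈ S, g t' t' ∧ g u t' ∧ ∃ z ∈ S, g t' z ∧ ¬ g u z := by
    by_contra hc
    push Not at hc
    have hv0 : ¬ g v₀ v₀ := fun h => h3 (hc v₀ hv₀ h h1 z₀ hz₀ h2)
    refine h3 (ystep hs (hA v₀ hv₀) hu h1 (fun h => hv0 (h ▸ huu)) ?_ z₀ hz₀ h2)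
    intro z hz hvz huz hzz
    obtain ⟨w, hw, hww, hwv, hwz, -, -⟩ := he2 v₀ hv₀ z hz hvz hv0 hzz
    exact ⟨w, hw, hs _ _ hwv, fun h => huz (hc w hw hww h z hz hwz), hwz⟩
  obtain ⟨t', ht', htt', hut', z, hz, htz', huz⟩ := s1
  obtain ⟨t, ht, htt, hsub, hmaxt⟩ := exists_max (S := S) ht' htt'
  have htu : g t u := hsub u hu (hs _ _ hut')
  have hut := hs _ _ htu
  have htz : g t z := hsub z hz htz'
  have hne : t ≠ u := fun h => huz (h ▸ htz)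
  have s2 : ∃ v ∈ S, g u v ∧ ¬ g t v := by
    by_contra hc
    push Not at hc
    exact huz (hmax t ht htt hc z hz htz)
  obtain ⟨v, hv, huv, htv⟩ := s2
  have htn : t ∈ nb g S u := mem_nb.2 ⟨ht, hne, hut⟩
  have hun : u ∈ nb g S t := mem_nb.2 ⟨hu, hne.symm, htu⟩
  have s3 : ∃ d ∈ nb g S u, ¬ g d t ∧
      ∀ v ∈ nb g S u, ∀ w ∈ nb g S u, ¬ g d v → ¬ g v w → ¬ g d w := by
    rcases hA u hu t htn with h | h
    · exact absurd htv (h v (mem_nb.2 ⟨hv, fun h => htv (h ▸ htu), huv⟩))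
    · exact h
  have s4 : ∃ e ∈ nb g S t, ¬ g e u ∧
      ∀ v ∈ nb g S t, ∀ w ∈ nb g S t, ¬ g e v → ¬ g v w → ¬ g e w := by
    rcases hA t ht u hun with h | h
    · exact absurd huz (h z (mem_nb.2 ⟨hz, fun h => huz (h ▸ hut), htz⟩))
    · exact h
  obtain ⟨d, hd, hdt, hcd⟩ := s3
  obtain ⟨e, he, heu, hce⟩ := s4
  obtain ⟨hdd, hp1, hp3⟩ := lem4 hs he2 hA hP hu ht huu htu hmax hne hd hdt hcd
  obtain ⟨hee, hp2, hp4⟩ := lem4 hs he2 hA hP ht hu htt hut hmaxt hne.symm he heu hce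
  obtain ⟨hd0, hdu, hud⟩ := mem_nb.1 hd
  obtain ⟨he0, het, hte⟩ := mem_nb.1 he
  refine ⟨d, t, e, hd0, hu, ht, he0, ⟨hs _ _ hud, hut, hte, hdt, ?_, fun h => heu (hs _ _ h), hdd,
    huu, htt, hee⟩, hp1, hp2, hp3, hp4, ?_, ?_⟩
  · intro h
    exact heu (hs _ _ (hp1 e he0 h))
  · intro v hv w hw huv huw hdv hdw
    by_cases hvu : v = u
    · rw [hvu]; exact huw
    by_cases hwu : w = u
    · rw [hwu]; exact hs _ _ huv
    by_contra hvw
    exact hcd v (mem_nb.2 ⟨hv, hvu, huv⟩) w (mem_nb.2 ⟨hw, hwu, huw⟩) hdv hvw hdw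
  · intro v hv w hw htv htw hev hew
    by_cases hvt : v = t
    · rw [hvt]; exact htw
    by_cases hwt : w = t
    · rw [hwt]; exact hs _ _ htv
    by_contra hvw
    exact hce v (mem_nb.2 ⟨hv, hvt, htv⟩) w (mem_nb.2 ⟨hw, hwt, htw⟩) hev hvw hew

/-- The final path has no bridge. -/
theorem FT.not_Br {g : U → U → Prop} {S : Finset U} {d u t e : U}
    (h : FT g S d u t e) : ¬ Br g S d u t e := by
  rintro ⟨k, hk, hb, -⟩
  have q1 := h.p1 k hk
  have q2 := h.p2 k hk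
  have q3 := h.p3 k hk
  have q4 := h.p4 k hk
  rcases hb with hb | hb | hb | hb
  · exact hb.2.2.1 (q3 hb.2.1 hb.1)
  · exact hb.2.2.1 (q2 hb.2.2.2)
  · exact hb.2.1 (q1 hb.1)
  · exact hb.2.1 (q4 hb.2.2.1 hb.2.2.2)

/-- Main statement for type A, by strong induction. -/
theorem clA_aux : ∀ n : ℕ, ∀ g : U → U → Prop, ∀ S : Finset U, S.card = n → AxA g S →
    Cl g S ∧ P4free g S := by
  intro n
  induction n using Nat.strong_induction_on with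
  | _ n ih =>
    intro g S hn h
    have hs := h.symm
    have hA : ∀ c ∈ S, Cl (co g) (nb g S c) ∧ P4free (co g) (nb g S c) := fun c hc =>
      ih _ (hn ▸ card_nb hc) _ _ rfl (h.ax0.nb hc)
    have hCl : Cl g S := by
      intro p hp
      by_cases h0 : ∀ v ∈ S, ¬ g p v
      · exact Or.inl h0
      right
      push Not at h0
      obtain ⟨v, hv, hpv⟩ := h0
      have h1 : ∃ x ∈ S, g x x ∧ g x p := by
        by_cases hpp : g p p
        · exact ⟨p, hp, hpp, hpp⟩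
        by_cases hvv : g v v
        · exact ⟨v, hv, hvv, hs _ _ hpv⟩
        obtain ⟨w, hw, hww, hwp, -, -, -⟩ := h.e2 p hp v hv hpv hpp hvv
        exact ⟨w, hw, hww, hwp⟩
      obtain ⟨x, hx, hxx, hxp⟩ := h1
      obtain ⟨u, hu, huu, hsub, hmax⟩ := exists_max (S := S) hx hxx
      refine ⟨u, hu, hsub p hp hxp, ?_⟩
      by_contra hc
      push Not at hc
      obtain ⟨v, hv, z, hz, huv, hvz, huz⟩ := hc
      obtain ⟨d, t, e, hF⟩ := exists_FT hs h.e2 (fun c hc => (hA c hc).1) (fun c hc => (hA c hc).2)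
        hu huu hmax hv hz huv hvz huz
      exact hF.not_Br (h.e4 d hF.hd u hF.hu t hF.ht e hF.he hF.pt)
    refine ⟨hCl, ?_⟩
    intro a ha b hb c hc d hd hab hbc hcd hac had
    by_contra hbd
    rcases hCl a ha with h1 | ⟨u, hu, hua, hcl⟩
    · exact h1 b hb hab
    have hub := hcl a ha b hb hua hab
    have huc := hcl b hb c hc hub hbc
    have hud := hcl c hc d hd huc hcd
    have e1 : a ≠ u := by
      rintro rfl
      exact hac huc
    have e2 : b ≠ u := by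
      rintro rfl
      exact hbd hud
    have e3 : c ≠ u := by
      rintro rfl
      exact hac (hs _ _ hua)
    have e4 : d ≠ u := by
      rintro rfl
      exact had (hs _ _ hua)
    have m1 : a ∈ nb g S u := mem_nb.2 ⟨ha, e1, hua⟩
    have m2 : b ∈ nb g S u := mem_nb.2 ⟨hb, e2, hub⟩
    have m3 : c ∈ nb g S u := mem_nb.2 ⟨hc, e3, huc⟩
    have m4 : d ∈ nb g S u := mem_nb.2 ⟨hd, e4, hud⟩
    -- the path in the complement: b - d - a - c
    exact (hA u hu).2 b m2 d m4 a m1 c m3 hbd (fun h => had (hs _ _ h)) hac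
      (not_not.2 (hs _ _ hab)) (not_not.2 hbc) (hs _ _ hcd)

theorem AxA.cl {g : U → U → Prop} {S : Finset U} (h : AxA g S) : Cl g S :=
  (clA_aux _ g S rfl h).1

theorem AxA.p4 {g : U → U → Prop} {S : Finset U} (h : AxA g S) : P4free g S :=
  (clA_aux _ g S rfl h).2

end Pool.Agent.H34CP
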