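import Pool.Agent.H34CP.Core

/-!
# Combinatorial core of the class K theorem (MP_472c72_co), type B
-/

namespace Pool.Agent.H34CP

variable {U : Type*}

theorem p4_co {g : U → U → Prop} {S : Finset U} (hs : ∀ a b, g a b → g b a)
    (h : P4free (co g) S) : P4free g S := by
  intro a ha b hb c hc d hd hab hbc hcd hac had
  by_contra hbd
  exact h b hb d hd a ha c hc hbd (fun h => had (hs _ _ h)) hac
      (not_not.2 (hs _ _ hab)) (not_not.2 hbc) (hs _ _ hcd)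

theorem AxA.closed {g : U → U → Prop} {S K : Finset U} (h : AxA g S) (hK : K ⊆ S)
    (hcl : ∀ v ∈ K, ∀ w ∈ S, g v w → w ∈ K) : AxA g K := by
  have hs := h.symm
  refine ⟨hs, ?_, ?_, ?_⟩
  · intro a ha b hb hab haa hbb
    obtain ⟨u, hu, huu, hua, hub, hi1, hi2⟩ := h.e2 a (hK ha) b (hK hb) hab haa hbb
    exact ⟨u, hcl a ha u hu (hs _ _ hua), huu, hua, hub, fun v hv => hi1 v (hK hv),
      fun v hv => hi2 v (hK hv)⟩
  · rintro a ha b hb hab haa hbb ⟨c, hc, hac, hbc⟩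
    obtain ⟨u, hu, huu, hua, hub, hi1, hi2⟩ := h.f2 a (hK ha) b (hK hb) hab haa hbb
      ⟨c, hK hc, hac, hbc⟩
    have huc : g u c := by
      by_contra h1
      rcases hi2 c (hK hc) h1 with h2 | h2
      · exact hac h2
      · exact hbc h2
    exact ⟨u, hcl c hc u hu (hs _ _ huc), huu, hua, hub, fun v hv => hi1 v (hK hv),
      fun v hv => hi2 v (hK hv)⟩
  · intro d hd u hu t ht e he hp
    obtain ⟨k, hk, hb, hc⟩ := h.e4 d (hK hd) u (hK hu) t (hK ht) e (hK he) hp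
    refine ⟨k, ?_, hb, fun p hp => hc p (hK hp)⟩
    rcases hb with hb | hb | hb | hb
    · exact hcl d hd k hk hb.1
    · exact hcl u hu k hk hb.2.1
    · exact hcl d hd k hk hb.1
    · exact hcl t ht k hk hb.2.2.1

theorem Leaf.co {g : U → U → Prop} {S : Finset U} (h : Leaf (co g) S) : Leaf g S := by
  obtain ⟨a, ha, b, hb, hab, h1, h2, h3⟩ := h
  refine ⟨a, ha, b, hb, hab, fun v hv hva hvb => not_iff_not.1 (h1 v hv hva hvb), ?_, ?_⟩
  · rintro ⟨h4, h5, h6⟩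
    exact h3 ⟨not_not.2 h4, h5, h6⟩
  · rintro ⟨h4, h5, h6⟩
    exact h2 ⟨h4, not_not.2 h5, not_not.2 h6⟩

theorem Leaf.lift {g : U → U → Prop} {S M : Finset U} (hM : M ⊆ S)
    (hm : ∀ a ∈ M, ∀ b ∈ M, ∀ v ∈ S, v ∉ M → (g a v ↔ g b v)) (h : Leaf g M) : Leaf g S := by
  obtain ⟨a, ha, b, hb, hab, h1, h2⟩ := h
  refine ⟨a, hM ha, b, hM hb, hab, fun v hv hva hvb => ?_, h2⟩
  by_cases hv' : v ∈ M
  · exact h1 v hv' hva hvb
  · exact hm a ha b hb v hv hv'

open Classical in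
/-- A leaf pair exists if there is a dominating looped vertex and another vertex. -/
theorem leafA : ∀ n : ℕ, ∀ g : U → U → Prop, ∀ X : Finset U, X.card = n → AxA g X → 2 ≤ n →
    ∀ u ∈ X, (∀ v ∈ X, g u v) → Leaf g X := by
  intro n
  induction n using Nat.strong_induction_on with
  | _ n ih =>
    intro g X hn h hn2 u hu hdom
    have hs := h.symm
    have hA := h.ax0.nb hu
    obtain ⟨p, hp, hpu⟩ : ∃ p ∈ X, p ≠ u := by
      by_contra hc
      push Not at hc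
      have : X ⊆ {u} := fun v hv => Finset.mem_singleton.2 (hc v hv)
      have := Finset.card_le_card this
      simp at this
      omega
    have hpA : p ∈ nb g X u := mem_nb.2 ⟨hp, hpu, hdom p hp⟩
    rcases hA.cl p hpA with h1 | ⟨x, hx, h1, hcl⟩
    · refine ⟨u, hu, p, hp, hpu.symm, ?_, ?_, ?_⟩
      · intro v hv hvu hvp
        have := h1 v (mem_nb.2 ⟨hv, hvu, hdom v hv⟩)
        exact ⟨fun _ => not_not.1 this, fun _ => hdom v hv⟩
      · rintro ⟨-, h2, -⟩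
        exact h2 (hdom u hu)
      · rintro ⟨h2, -, -⟩
        exact h2 (hdom p hp)
    · obtain ⟨hxX, hxu, -⟩ := mem_nb.1 hx
      have hxx : ¬ g x x := hcl p hpA x hx h1 (fun h => h1 (hs _ _ h))
      set N := (nb g X u).filter (fun v => ¬ g x v) with hN
      have hxN : x ∈ N := by simp [hN, hx, hxx]
      have hNX : N ⊆ X := fun v hv => (mem_nb.1 (Finset.mem_filter.1 hv).1).1
      have hNA : N ⊆ nb g X u := Finset.filter_subset _ _
      have hcl' : ∀ v ∈ N, ∀ w ∈ nb g X u, co g v w → w ∈ N := by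
        intro v hv w hw hvw
        obtain ⟨hv1, hv2⟩ := Finset.mem_filter.1 hv
        exact Finset.mem_filter.2 ⟨hw, hcl v hv1 w hw hv2 hvw⟩
      by_cases hcard : N.card ≤ 1
      · refine ⟨u, hu, x, hxX, hxu.symm, ?_, ?_, ?_⟩
        · intro v hv hvu hvx
          refine ⟨fun _ => ?_, fun _ => hdom v hv⟩
          by_contra hc
          have hvN : v ∈ N := by
            simp only [hN, Finset.mem_filter]
            exact ⟨mem_nb.2 ⟨hv, hvu, hdom v hv⟩, hc⟩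
          exact hvx (Finset.card_le_one.1 hcard v hvN x hxN)
        · rintro ⟨-, h2, -⟩
          exact h2 (hdom u hu)
        · rintro ⟨h2, -, -⟩
          exact h2 (hdom x hxX)
      · have hlt : N.card < n := by
          rw [← hn]
          exact lt_of_le_of_lt (Finset.card_le_card hNA) (card_nb hu)
        have := ih N.card hlt (co g) N rfl (hA.closed hNA hcl') (by omega) x hxN
          (fun v hv => (Finset.mem_filter.1 hv).2)
        refine this.co.lift hNX ?_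
        intro a ha b hb v hv hvN
        by_cases hvu : v = u
        · subst hvu
          exact ⟨fun _ => hs _ _ (hdom b (hNX hb)), fun _ => hs _ _ (hdom a (hNX ha))⟩
        · have hvA : v ∈ nb g X u := mem_nb.2 ⟨hv, hvu, hdom v hv⟩
          have e1 : ∀ c ∈ N, g c v := by
            intro c hc
            by_contra h2
            exact hvN (hcl' c hc v hvA h2)
          exact ⟨fun _ => e1 b hb, fun _ => e1 a ha⟩

/-- Type B without path: a dominating looped vertex or an isolated unlooped vertex. -/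
theorem domB {g : U → U → Prop} {X : Finset U} (hs : ∀ a b, g a b → g b a) (hcl : Cl g X)
    (he : E2 (co g) X) (hne : X.Nonempty) :
    (∃ u ∈ X, ∀ v ∈ X, g u v) ∨ ∃ d ∈ X, ∀ v ∈ X, ¬ g d v := by
  by_contra hc
  push Not at hc
  obtain ⟨h1, h2⟩ := hc
  obtain ⟨p, hp⟩ := hne
  have key : ∀ p ∈ X, ∃ u ∈ X, g u p ∧ ∀ v ∈ X, ∀ w ∈ X, g u v → g v w → g u w := by
    intro p hp
    rcases hcl p hp with h | h
    · obtain ⟨v, hv, hpv⟩ := h2 p hp
      exact absurd hpv (h v hv)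
    · exact h
  obtain ⟨u, hu, hup, hcu⟩ := key p hp
  have huu : g u u := hcu p hp u hu hup (hs _ _ hup)
  obtain ⟨q, hq, huq⟩ := h1 u hu
  obtain ⟨u', hu', hup', hcu'⟩ := key q hq
  have huu' : g u' u' := hcu' q hq u' hu' hup' (hs _ _ hup')
  have hnu : ¬ g u u' := fun h => huq (hcu u' hu' q hq h hup')
  obtain ⟨w, hw, hww, hwu, hwu', hi1, hi2⟩ := he u hu u' hu' hnu (not_not.2 huu) (not_not.2 huu')
  obtain ⟨x, hx, hxw, hcx⟩ := key w hw
  have hxx : g x x := hcx w hw x hx hxw (hs _ _ hxw)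
  have hux : g u x ∨ g u' x := by
    by_contra h3
    push Not at h3
    exact hi1 x hx h3.1 h3.2 (hs _ _ hxw)
  rcases hux with h3 | h3
  · exact hwu (hs _ _ (hcu x hx w hw h3 hxw))
  · exact hwu' (hs _ _ (hcu' x hx w hw h3 hxw))

/-- A module on which the interval vertices stay inside and without path has a leaf pair. -/
theorem leafM {g : U → U → Prop} {M : Finset U} (hs : ∀ a b, g a b → g b a) (h1 : E2 g M) (h2 : E2 (co g) M)
    (hp : P4free g M) (hc : 2 ≤ M.card) : Leaf g M := by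
  have hA : AxA g M := by
    refine ⟨hs, h1, fun a ha b hb h3 h4 h5 _ => h2 a ha b hb h3 h4 h5, ?_⟩
    intro d hd u hu t ht e he hP
    exact absurd (hp d hd u hu t ht e he hP.du hP.ut hP.te hP.dt hP.de) hP.ue
  have hp' : P4free (co g) M := p4_co (g := co g) (fun a b h h' => h (hs _ _ h')) (by rwa [co_co])
  have hA' : AxA (co g) M := by
    refine ⟨fun a b h h' => h (hs _ _ h'), h2, fun a ha b hb h3 h4 h5 _ => ?_, ?_⟩
    · rw [co_co] at *
      exact h1 a ha b hb h3 h4 h5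
    intro d hd u hu t ht e he hP
    exact absurd (hp' d hd u hu t ht e he hP.du hP.ut hP.te hP.dt hP.de) hP.ue
  have hne : M.Nonempty := Finset.card_pos.1 (by omega)
  rcases domB hs hA.cl h2 hne with ⟨u, hu, hd⟩ | ⟨d, hd, hi⟩
  · exact leafA _ g M rfl hA hc u hu hd
  · exact (leafA _ (co g) M rfl hA' hc d hd hi).co

open Classical in
/-- Main statement for type B. -/
theorem mainB {g : U → U → Prop} {S : Finset U} (h : AxB g S) (hne : S.Nonempty) :
    (∃ u ∈ S, ∀ v ∈ S, g u v) ∨ (∃ d ∈ S, ∀ v ∈ S, ¬ g d v) ∨ Leaf g S ∨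
      ∃ d ∈ S, ∃ u ∈ S, ∃ t ∈ S, ∃ e ∈ S, PT g d u t e ∧ ∀ v ∈ S, v = d ∨ v = u ∨ v = t ∨ v = e := by
  have hs := h.symm
  have hA : ∀ c ∈ S, AxA (co g) (nb g S c) := fun c hc => h.ax0.nb hc
  have hP : ∀ c ∈ S, P4free g (nb g S c) := fun c hc => p4_co hs (hA c hc).p4
  have hZ : ∀ c ∈ S, P4free g (nz g S c) := fun c hc => (h.ax0.nz hc).p4
  by_cases hcl : Cl g S
  · rcases domB hs hcl h.f2 hne with h1 | h1
    · exact Or.inl h1
    · exact Or.inr (Or.inl h1)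
  right; right
  -- the final path
  obtain ⟨d, u, t, e, hF⟩ : ∃ d u t e, FT g S d u t e := by
    by_contra hno
    apply hcl
    intro p hp
    by_cases h0 : ∀ v ∈ S, ¬ g p v
    · exact Or.inl h0
    right
    push Not at h0
    obtain ⟨v, hv, hpv⟩ := h0
    have h1 : ∃ x ∈ S, g x x ∧ g x p := by
      by_cases hpp : g p p
      · exact ⟨p, hp, hpp, hpp⟩
      by_cases hvv : g v v
      · exact ⟨v, hv, hvv, hs _ _ hpv⟩
      obtain ⟨w, hw, hww, hwp, -, -, -⟩ := h.e2 p hp v hv hpv hpp hvv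
      exact ⟨w, hw, hww, hwp⟩
    obtain ⟨x, hx, hxx, hxp⟩ := h1
    obtain ⟨u, hu, huu, hsub, hmax⟩ := exists_max (S := S) hx hxx
    refine ⟨u, hu, hsub p hp hxp, ?_⟩
    by_contra hc
    push Not at hc
    obtain ⟨v, hv, z, hz, huv, hvz, huz⟩ := hc
    obtain ⟨d, t, e, hF⟩ := exists_FT hs h.e2 (fun c hc => (hA c hc).cl) (fun c hc => (hA c hc).p4)
      hu huu hmax hv hz huv hvz huz
    exact hno ⟨d, u, t, e, hF⟩
  have hbr := (h.e4 d hF.hd u hF.hu t hF.ht e hF.he hF.pt).resolve_left hF.not_Br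
  have hpt := hF.pt
  -- patterns
  have pat : ∀ v ∈ S, (¬ g d v ∧ g u v ∧ ¬ g t v ∧ ¬ g e v) ∨ (¬ g d v ∧ ¬ g u v ∧ g t v ∧ ¬ g e v) ∨
      (g d v ∧ g u v ∧ g t v ∧ ¬ g e v) ∨ (¬ g d v ∧ g u v ∧ g t v ∧ g e v) := by
    intro v hv
    have q1 := hF.p1 v hv
    have q2 := hF.p2 v hv
    have q3 := hF.p3 v hv
    have q4 := hF.p4 v hv
    have q5 := hbr v hv
    by_cases c1 : g d v <;> by_cases c2 : g u v <;> by_cases c3 : g t v <;> by_cases c4 : g e v <;>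
      simp [c1, c2, c3, c4] at q1 q2 q3 q4 q5 ⊢
  have patX : ∀ v ∈ S, g u v → ¬ g t v → ¬ g d v ∧ ¬ g e v := by
    intro v hv h1 h2
    rcases pat v hv with h | h | h | h <;> tauto
  have patY : ∀ v ∈ S, g t v → ¬ g u v → ¬ g d v ∧ ¬ g e v := by
    intro v hv h1 h2
    rcases pat v hv with h | h | h | h <;> tauto
  have patS : ∀ v ∈ S, g d v → g u v ∧ g t v ∧ ¬ g e v := by
    intro v hv h1
    rcases pat v hv with h | h | h | h <;> tauto
  have patT : ∀ v ∈ S, g e v → g u v ∧ g t v ∧ ¬ g d v := by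
    intro v hv h1
    rcases pat v hv with h | h | h | h <;> tauto
  have r1 : ∀ v ∈ S, ∀ w ∈ S, g u v → ¬ g t v → g d w → g v w := fun v hv w hw h1 h2 h3 =>
    hF.n1 v hv w hw h1 (patS w hw h3).1 (patX v hv h1 h2).1 h3
  have r2 : ∀ v ∈ S, ∀ w ∈ S, g e v → g d w → g v w := fun v hv w hw h1 h2 =>
    hF.n1 v hv w hw (patT v hv h1).1 (patS w hw h2).1 (patT v hv h1).2.2 h2
  have r3 : ∀ v ∈ S, ∀ w ∈ S, g t v → ¬ g u v → g e w → g v w := fun v hv w hw h1 h2 h3 =>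
    hF.n2 v hv w hw h1 (patT w hw h3).2.1 (patY v hv h1 h2).2 h3
  have r4 : ∀ s ∈ S, ∀ y ∈ S, g d s → g t y → ¬ g u y → ¬ g s y := by
    intro s hs' y hy h1 h2 h3 h4
    have m1 : d ∈ nb g S s := mem_nb.2 ⟨hF.hd, fun h => hpt.dd (h ▸ h1), hs _ _ h1⟩
    have m2 : u ∈ nb g S s := mem_nb.2 ⟨hF.hu, fun h => h3 (h ▸ h4), hs _ _ (patS s hs' h1).1⟩
    have m3 : t ∈ nb g S s := mem_nb.2 ⟨hF.ht, fun h => hpt.dt (h ▸ h1), hs _ _ (patS s hs' h1).2.1⟩
    have m4 : y ∈ nb g S s := mem_nb.2 ⟨hy, fun h => (patY y hy h2 h3).1 (h ▸ h1), h4⟩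
    exact h3 (hP s hs' d m1 u m2 t m3 y m4 hpt.du hpt.ut h2 hpt.dt (patY y hy h2 h3).1)
  have r5 : ∀ x ∈ S, ∀ q ∈ S, g u x → ¬ g t x → g e q → ¬ g q x := by
    intro x hx q hq h1 h2 h3 h4
    have m1 : x ∈ nb g S q := mem_nb.2 ⟨hx, fun h => (patX x hx h1 h2).2 (h ▸ h3), h4⟩
    have m2 : u ∈ nb g S q := mem_nb.2 ⟨hF.hu, fun h => hpt.ue (hs _ _ (h ▸ h3)),
      hs _ _ (patT q hq h3).1⟩
    have m3 : t ∈ nb g S q := mem_nb.2 ⟨hF.ht, fun h => h2 (h ▸ h4), hs _ _ (patT q hq h3).2.1⟩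
    have m4 : e ∈ nb g S q := mem_nb.2 ⟨hF.he, fun h => hpt.ee (h ▸ h3), hs _ _ h3⟩
    exact hpt.ue (hP q hq x m1 u m2 t m3 e m4 (hs _ _ h1) hpt.ut hpt.te (fun h => h2 (hs _ _ h))
      (fun h => (patX x hx h1 h2).2 (hs _ _ h)))
  have r6 : ∀ x ∈ S, ∀ y ∈ S, g u x → ¬ g t x → g t y → ¬ g u y → ¬ g x y := by
    intro x hx y hy h1 h2 h3 h4 h5
    have m1 : d ∈ nz g S e := mem_nz.2 ⟨hF.hd, fun h => hpt.ue (h ▸ hs _ _ hpt.du),
      fun h => hpt.de (hs _ _ h)⟩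
    have m2 : u ∈ nz g S e := mem_nz.2 ⟨hF.hu, fun h => hpt.de (h ▸ hpt.du),
      fun h => hpt.ue (hs _ _ h)⟩
    have m3 : x ∈ nz g S e := mem_nz.2 ⟨hx, fun h => hpt.ue (h ▸ h1), (patX x hx h1 h2).2⟩
    have m4 : y ∈ nz g S e := mem_nz.2 ⟨hy, fun h => (patX x hx h1 h2).2 (hs _ _ (h ▸ h5)),
      (patY y hy h3 h4).2⟩
    exact h4 (hZ e hF.he d m1 u m2 x m3 y m4 hpt.du h1 h5 (patX x hx h1 h2).1 (patY y hy h3 h4).1)
  -- the four classes
  have cls : ∀ (M : Finset U) (c : U), M ⊆ S →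
      (∀ a ∈ M, ∀ b ∈ M, ∀ v ∈ S, v ∉ M → (g a v ↔ g b v)) →
      (∀ a ∈ M, ∀ b ∈ M, ∀ w ∈ S, (∀ v ∈ S, g a v → g b v → g w v) →
        (∀ v ∈ S, g w v → g a v ∨ g b v) → w ∈ M) →
      P4free g M → (∀ x ∈ M, x = c) ∨ c ∉ M ∨ Leaf g S := by
    intro M c hM hmod hint hp4
    by_cases hc : c ∈ M
    swap
    · exact Or.inr (Or.inl hc)
    by_cases hx : ∀ x ∈ M, x = c
    · exact Or.inl hx
    right; right
    push Not at hx
    obtain ⟨x, hxM, hxc⟩ := hx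
    have hcard : 2 ≤ M.card := by
      have : ({x, c} : Finset U) ⊆ M := by
        intro v hv
        rcases Finset.mem_insert.1 hv with rfl | hv
        · exact hxM
        · rw [Finset.mem_singleton.1 hv]; exact hc
      have h1 := Finset.card_le_card this
      rwa [Finset.card_pair hxc] at h1
    refine (leafM hs ?_ ?_ hp4 hcard).lift hM hmod
    · intro a ha b hb hab haa hbb
      obtain ⟨w, hw, hww, hwa, hwb, hi1, hi2⟩ := h.e2 a (hM ha) b (hM hb) hab haa hbb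
      exact ⟨w, hint a ha b hb w hw hi1 hi2, hww, hwa, hwb, fun v hv => hi1 v (hM hv),
        fun v hv => hi2 v (hM hv)⟩
    · intro a ha b hb hab haa hbb
      obtain ⟨w, hw, hww, hwa, hwb, hi1, hi2⟩ := h.f2 a (hM ha) b (hM hb) hab haa hbb
      refine ⟨w, hint a ha b hb w hw ?_ ?_, hww, hwa, hwb, fun v hv => hi1 v (hM hv),
        fun v hv => hi2 v (hM hv)⟩
      · intro v hv hav hbv
        by_contra hwv
        rcases hi2 v hv hwv with h1 | h1
        · exact h1 hav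
        · exact h1 hbv
      · intro v hv hwv
        by_contra hc
        push Not at hc
        exact hi1 v hv hc.1 hc.2 hwv
  have mono : ∀ M N : Finset U, M ⊆ N → P4free g N → P4free g M := fun M N hMN hN a ha b hb c hc d hd =>
    hN a (hMN ha) b (hMN hb) c (hMN hc) d (hMN hd)
  have cX := cls (S.filter (fun v => g u v ∧ ¬ g t v)) d (Finset.filter_subset _ _) (by
      intro a ha b hb v hv hvM
      simp only [Finset.mem_filter, not_and, not_not] at ha hb hvM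
      rcases pat v hv with h1 | h1 | h1 | h1
      · exact absurd (hvM hv h1.2.1) h1.2.2.1
      · exact ⟨fun h2 => absurd h2 (r6 a ha.1 v hv ha.2.1 ha.2.2 h1.2.2.1 h1.2.1),
          fun h2 => absurd h2 (r6 b hb.1 v hv hb.2.1 hb.2.2 h1.2.2.1 h1.2.1)⟩
      · exact ⟨fun _ => r1 b hb.1 v hv hb.2.1 hb.2.2 h1.1, fun _ => r1 a ha.1 v hv ha.2.1 ha.2.2 h1.1⟩
      · exact ⟨fun h2 => absurd (hs _ _ h2) (r5 a ha.1 v hv ha.2.1 ha.2.2 h1.2.2.2),
          fun h2 => absurd (hs _ _ h2) (r5 b hb.1 v hv hb.2.1 hb.2.2 h1.2.2.2)⟩)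
    (by
      intro a ha b hb w hw h1 h2
      simp only [Finset.mem_filter] at ha hb ⊢
      refine ⟨hw, hs _ _ (h1 u hF.hu (hs _ _ ha.2.1) (hs _ _ hb.2.1)), fun h3 => ?_⟩
      rcases h2 t hF.ht (hs _ _ h3) with h4 | h4
      · exact ha.2.2 (hs _ _ h4)
      · exact hb.2.2 (hs _ _ h4))
    (mono _ _ (by
      intro v hv
      simp only [Finset.mem_filter] at hv
      exact mem_nb.2 ⟨hv.1, fun h => hv.2.2 (h ▸ hs _ _ hpt.ut), hv.2.1⟩) (hP u hF.hu))
  have cY := cls (S.filter (fun v => g t v ∧ ¬ g u v)) e (Finset.filter_subset _ _) (by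
      intro a ha b hb v hv hvM
      simp only [Finset.mem_filter, not_and, not_not] at ha hb hvM
      rcases pat v hv with h1 | h1 | h1 | h1
      · exact ⟨fun h2 => absurd (hs _ _ h2) (r6 v hv a ha.1 h1.2.1 h1.2.2.1 ha.2.1 ha.2.2),
          fun h2 => absurd (hs _ _ h2) (r6 v hv b hb.1 h1.2.1 h1.2.2.1 hb.2.1 hb.2.2)⟩
      · exact absurd (hvM hv h1.2.2.1) h1.2.1
      · exact ⟨fun h2 => absurd (hs _ _ h2) (r4 v hv a ha.1 h1.1 ha.2.1 ha.2.2),
          fun h2 => absurd (hs _ _ h2) (r4 v hv b hb.1 h1.1 hb.2.1 hb.2.2)⟩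
      · exact ⟨fun _ => r3 b hb.1 v hv hb.2.1 hb.2.2 h1.2.2.2,
          fun _ => r3 a ha.1 v hv ha.2.1 ha.2.2 h1.2.2.2⟩)
    (by
      intro a ha b hb w hw h1 h2
      simp only [Finset.mem_filter] at ha hb ⊢
      refine ⟨hw, hs _ _ (h1 t hF.ht (hs _ _ ha.2.1) (hs _ _ hb.2.1)), fun h3 => ?_⟩
      rcases h2 u hF.hu (hs _ _ h3) with h4 | h4
      · exact ha.2.2 (hs _ _ h4)
      · exact hb.2.2 (hs _ _ h4))
    (mono _ _ (by
      intro v hv
      simp only [Finset.mem_filter] at hv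
      exact mem_nb.2 ⟨hv.1, fun h => hv.2.2 (h ▸ hpt.ut), hv.2.1⟩) (hP t hF.ht))
  have cS := cls (S.filter (fun v => g d v)) u (Finset.filter_subset _ _) (by
      intro a ha b hb v hv hvM
      simp only [Finset.mem_filter, not_and] at ha hb hvM
      rcases pat v hv with h1 | h1 | h1 | h1
      · exact ⟨fun _ => hs _ _ (r1 v hv b hb.1 h1.2.1 h1.2.2.1 hb.2),
          fun _ => hs _ _ (r1 v hv a ha.1 h1.2.1 h1.2.2.1 ha.2)⟩
      · exact ⟨fun h2 => absurd h2 (r4 a ha.1 v hv ha.2 h1.2.2.1 h1.2.1),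
          fun h2 => absurd h2 (r4 b hb.1 v hv hb.2 h1.2.2.1 h1.2.1)⟩
      · exact absurd h1.1 (hvM hv)
      · exact ⟨fun _ => hs _ _ (r2 v hv b hb.1 h1.2.2.2 hb.2),
          fun _ => hs _ _ (r2 v hv a ha.1 h1.2.2.2 ha.2)⟩)
    (by
      intro a ha b hb w hw h1 h2
      simp only [Finset.mem_filter] at ha hb ⊢
      exact ⟨hw, hs _ _ (h1 d hF.hd (hs _ _ ha.2) (hs _ _ hb.2))⟩)
    (mono _ _ (by
      intro v hv
      simp only [Finset.mem_filter] at hv
      exact mem_nb.2 ⟨hv.1, fun h => hpt.dd (h ▸ hv.2), hv.2⟩) (hP d hF.hd))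
  have cT := cls (S.filter (fun v => g e v)) t (Finset.filter_subset _ _) (by
      intro a ha b hb v hv hvM
      simp only [Finset.mem_filter, not_and] at ha hb hvM
      rcases pat v hv with h1 | h1 | h1 | h1
      · exact ⟨fun h2 => absurd h2 (r5 v hv a ha.1 h1.2.1 h1.2.2.1 ha.2),
          fun h2 => absurd h2 (r5 v hv b hb.1 h1.2.1 h1.2.2.1 hb.2)⟩
      · exact ⟨fun _ => hs _ _ (r3 v hv b hb.1 h1.2.2.1 h1.2.1 hb.2),
          fun _ => hs _ _ (r3 v hv a ha.1 h1.2.2.1 h1.2.1 ha.2)⟩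
      · exact ⟨fun _ => r2 b hb.1 v hv hb.2 h1.1, fun _ => r2 a ha.1 v hv ha.2 h1.1⟩
      · exact absurd h1.2.2.2 (hvM hv))
    (by
      intro a ha b hb w hw h1 h2
      simp only [Finset.mem_filter] at ha hb ⊢
      exact ⟨hw, hs _ _ (h1 e hF.he (hs _ _ ha.2) (hs _ _ hb.2))⟩)
    (mono _ _ (by
      intro v hv
      simp only [Finset.mem_filter] at hv
      exact mem_nb.2 ⟨hv.1, fun h => hpt.ee (h ▸ hv.2), hv.2⟩) (hP e hF.he))
  simp only [Finset.mem_filter] at cX cY cS cT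
  rcases cX with cX | cX | cX
  rotate_left
  · exact absurd ⟨hF.hd, hs _ _ hpt.du, fun h => hpt.dt (hs _ _ h)⟩ cX
  · exact Or.inl cX
  rcases cY with cY | cY | cY
  rotate_left
  · exact absurd ⟨hF.he, hpt.te, hpt.ue⟩ cY
  · exact Or.inl cY
  rcases cS with cS | cS | cS
  rotate_left
  · exact absurd ⟨hF.hu, hpt.du⟩ cS
  · exact Or.inl cS
  rcases cT with cT | cT | cT
  rotate_left
  · exact absurd ⟨hF.ht, hs _ _ hpt.te⟩ cT
  · exact Or.inl cT
  refine Or.inr ⟨d, hF.hd, u, hF.hu, t, hF.ht, e, hF.he, hpt, ?_⟩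
  intro v hv
  rcases pat v hv with h1 | h1 | h1 | h1
  · exact Or.inl (cX v ⟨hv, h1.2.1, h1.2.2.1⟩)
  · exact Or.inr (Or.inr (Or.inr (cY v ⟨hv, h1.2.2.1, h1.2.1⟩)))
  · exact Or.inr (Or.inl (cS v ⟨hv, h1.1⟩))
  · exact Or.inr (Or.inr (Or.inl (cT v ⟨hv, h1.2.2.2⟩)))

end Pool.Agent.H34CP
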