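import Pool.Agent.H48.CP.Defs
import Pool.Agent.H34CP.CoreB

/-!
# Theorem B (notes 3634, 3639 on MP_472c72): beta systems
-/

namespace H48CP

namespace SG

open Pool.Agent.H34CP

variable {V : Type*} {G : SG V} {S : Finset V} {β : Prop}

/-- adjacency with loops at the minus elements -/
def rel (G : SG V) : V → V → Prop := fun a b => G.adj a b ∨ (a = b ∧ G.sg a)

/-- a leaf pair: two elements whose rows differ in at most one element -/
def LeafPair (G : SG V) (S : Finset V) : Prop :=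
  ∃ a ∈ S, ∃ b ∈ S, a ≠ b ∧ (∀ v ∈ S, v ≠ a → v ≠ b → (G.adj a v ↔ G.adj b v)) ∧
    ¬ (G.adj a b ∧ ¬ G.sg a ∧ ¬ G.sg b) ∧ ¬ (¬ G.adj a b ∧ G.sg a ∧ G.sg b)

theorem rel_self {a : V} : G.rel a a ↔ G.sg a := by
  unfold rel
  have := G.irr a
  tauto

theorem rel_ne {a b : V} (h : a ≠ b) : G.rel a b ↔ G.adj a b := by
  unfold rel
  tauto

theorem rel_symm : ∀ a b, G.rel a b → G.rel b a := by
  intro a b h
  rcases h with h | ⟨rfl, h⟩
  · exact Or.inl (G.symm h)
  · exact Or.inr ⟨rfl, h⟩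

theorem Ax.e2_rel (h : Ax β G S) : E2 G.rel S := by
  intro a ha b hb hab haa hbb
  rw [rel_self] at haa hbb
  have hne : a ≠ b := by
    rintro rfl
    exact haa (rel_self.1 hab)
  rw [rel_ne hne] at hab
  obtain ⟨z, hz, sz, za, zb, hB⟩ := h.e2a a ha b hb hab haa hbb
  refine ⟨z, hz, rel_self.2 sz, Or.inl za, Or.inl zb, ?_, ?_⟩
  · intro v hv h1 h2
    by_cases e1 : v = a
    · subst e1; exact Or.inl za
    by_cases e2 : v = b
    · subst e2; exact Or.inl zb
    by_cases e3 : v = z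
    · subst e3; exact rel_self.2 sz
    rw [rel_ne (Ne.symm e1)] at h1
    rw [rel_ne (Ne.symm e2)] at h2
    exact Or.inl (G.symm ((hB v hv e1 e2 e3).1 (G.symm h1) (G.symm h2)))
  · intro v hv h1
    by_cases e1 : v = a
    · subst e1; exact Or.inr (Or.inl (G.symm hab))
    by_cases e2 : v = b
    · subst e2; exact Or.inl (Or.inl hab)
    by_cases e3 : v = z
    · subst e3; exact Or.inl (Or.inl (G.symm za))
    rw [rel_ne (Ne.symm e3)] at h1
    rcases (hB v hv e1 e2 e3).2 (G.symm h1) with h2 | h2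
    · exact Or.inl (Or.inl (G.symm h2))
    · exact Or.inr (Or.inl (G.symm h2))

theorem Ax.f2_rel (h : Ax True G S) : E2 (Pool.Agent.H34CP.co G.rel) S := by
  intro a ha b hb hab haa hbb
  have saa : G.sg a := rel_self.1 (not_not.1 haa)
  have sbb : G.sg b := rel_self.1 (not_not.1 hbb)
  have hne : a ≠ b := by
    rintro rfl
    exact hab (rel_self.2 saa)
  have hab' : ¬ G.adj a b := fun h1 => hab (Or.inl h1)
  obtain ⟨z, hz, sz, za, zb, hB⟩ := h.e2b a ha b hb hne hab' saa sbb (Or.inl trivial)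
  have hza : z ≠ a := by
    rintro rfl
    exact sz saa
  have hzb : z ≠ b := by
    rintro rfl
    exact sz sbb
  have k1 : ∀ v, G.rel z v ↔ G.adj z v := by
    intro v
    by_cases e : z = v
    · subst e
      rw [rel_self]
      exact ⟨fun h => absurd h sz, fun h => absurd h (G.irr _)⟩
    · exact rel_ne e
  refine ⟨z, hz, fun h1 => sz (rel_self.1 h1), fun h1 => za ((k1 a).1 h1),
    fun h1 => zb ((k1 b).1 h1), ?_, ?_⟩
  · intro v hv h1 h2 h3
    have h3 := (k1 v).1 h3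
    have e3 : v ≠ z := by
      rintro rfl
      exact G.irr _ h3
    by_cases e1 : v = a
    · subst e1; exact za h3
    by_cases e2 : v = b
    · subst e2; exact zb h3
    rcases (hB v hv e1 e2 e3).2 (G.symm h3) with h4 | h4
    · exact h1 (Or.inl (G.symm h4))
    · exact h2 (Or.inl (G.symm h4))
  · intro v hv h3
    by_contra hc
    have hc' : G.rel a v ∧ G.rel b v := by
      by_contra h5
      apply hc
      by_cases h6 : G.rel a v
      · exact Or.inr (fun h7 => h5 ⟨h6, h7⟩)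
      · exact Or.inl h6
    obtain ⟨h1, h2⟩ := hc'
    by_cases e1 : v = a
    · subst e1
      rw [rel_ne hne.symm] at h2
      exact hab' (G.symm h2)
    by_cases e2 : v = b
    · subst e2
      rw [rel_ne hne] at h1
      exact hab' h1
    rw [rel_ne (Ne.symm e1)] at h1
    rw [rel_ne (Ne.symm e2)] at h2
    by_cases e3 : v = z
    · subst e3
      exact za (G.symm h1)
    exact h3 (Or.inl (G.symm ((hB v hv e1 e2 e3).1 (G.symm h1) (G.symm h2))))

theorem rel_p4 {x s t y : V} (h : PT G.rel x s t y) :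
    G.P4 x s t y ∧ ¬ G.sg x ∧ G.sg s ∧ G.sg t ∧ ¬ G.sg y := by
  have sx : ¬ G.sg x := fun h1 => h.dd (rel_self.2 h1)
  have ss : G.sg s := rel_self.1 h.uu
  have st : G.sg t := rel_self.1 h.tt
  have sy : ¬ G.sg y := fun h1 => h.ee (rel_self.2 h1)
  have e1 : x ≠ s := fun e => sx (e ▸ ss)
  have e2 : s ≠ t := by
    rintro rfl
    exact h.dt h.du
  have e3 : t ≠ y := fun e => sy (e ▸ st)
  exact ⟨⟨(rel_ne e1).1 h.du, (rel_ne e2).1 h.ut, (rel_ne e3).1 h.te, fun h1 => h.dt (Or.inl h1),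
    fun h1 => h.de (Or.inl h1), fun h1 => h.ue (Or.inl h1)⟩, sx, ss, st, sy⟩

theorem Ax.e4_rel (h : Ax β G S) : E4B G.rel S := by
  intro x hx s hs t ht y hy hp
  obtain ⟨hp4, sx, ss, st, sy⟩ := rel_p4 hp
  rcases h.e4 x hx s hs t ht y hy hp4 sx ss st sy with ⟨k, hk, n1, n2, n3, n4, hpat, hc⟩ | ⟨-, hE⟩
  · refine Or.inl ⟨k, hk, ?_, ?_⟩
    · unfold Pt
      rw [rel_ne n1.symm, rel_ne n2.symm, rel_ne n3.symm, rel_ne n4.symm]
      have q : ∀ v, G.adj v k ↔ G.adj k v := fun v => ⟨G.symm, G.symm⟩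
      rw [q x, q s, q t, q y]
      unfold Pat at hpat
      tauto
    · intro p hp'
      have cx : p ≠ x ∧ p ≠ s ∧ p ≠ t ∧ p ≠ y → p ≠ k →
          (¬ G.rel x p → ¬ G.rel s p → ¬ G.rel t p → ¬ G.rel y p → ¬ G.rel p k) ∧
          (G.rel x p → G.rel s p → G.rel t p → G.rel y p → G.rel p k) := by
        rintro ⟨m1, m2, m3, m4⟩ m5
        rw [rel_ne m1.symm, rel_ne m2.symm, rel_ne m3.symm, rel_ne m4.symm, rel_ne m5]
        have := hc p hp' m1 m2 m3 m4 m5
        have q : ∀ v, G.adj v p ↔ G.adj p v := fun v => ⟨G.symm, G.symm⟩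
        rw [q x, q s, q t, q y]
        exact this
      by_cases m5 : p = k
      · subst m5
        have q : ∀ v, G.adj v p → G.rel v p := fun v h => Or.inl h
        have q' : ∀ v, v ≠ p → ¬ G.adj v p → ¬ G.rel v p := fun v h h' h'' => h' ((rel_ne h).1 h'')
        unfold Pat at hpat
        rcases hpat with ⟨b1, b2, b3, b4⟩ | ⟨b1, b2, b3, b4⟩ | ⟨b1, b2, b3, b4⟩ | ⟨b1, b2, b3, b4⟩
        · exact ⟨fun a1 => absurd (Or.inl (G.symm b1)) a1,
            fun _ _ _ a4 => absurd ((rel_ne n4.symm).1 a4) (fun h => b4 (G.symm h))⟩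
        · exact ⟨fun _ a2 => absurd (Or.inl (G.symm b2)) a2,
            fun a1 => absurd ((rel_ne n1.symm).1 a1) (fun h => b1 (G.symm h))⟩
        · exact ⟨fun a1 => absurd (Or.inl (G.symm b1)) a1,
            fun _ _ _ a4 => absurd ((rel_ne n4.symm).1 a4) (fun h => b4 (G.symm h))⟩
        · exact ⟨fun _ _ _ a4 => absurd (Or.inl (G.symm b4)) a4,
            fun a1 => absurd ((rel_ne n1.symm).1 a1) (fun h => b1 (G.symm h))⟩
      by_cases m1 : p = x
      · subst m1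
        exact ⟨fun _ a2 => absurd (rel_symm _ _ hp.du) a2, fun a1 => absurd a1 hp.dd⟩
      by_cases m2 : p = s
      · subst m2
        exact ⟨fun a1 => absurd hp.du a1, fun _ _ _ a4 => absurd (rel_symm _ _ a4) hp.ue⟩
      by_cases m3 : p = t
      · subst m3
        exact ⟨fun _ a2 => absurd hp.ut a2, fun a1 => absurd a1 hp.dt⟩
      by_cases m4 : p = y
      · subst m4
        exact ⟨fun _ _ a3 => absurd hp.te a3, fun a1 => absurd a1 hp.de⟩
      exact cx ⟨m1, m2, m3, m4⟩ m5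
  · right
    intro v hv
    have q : ∀ w, w ≠ v → (G.rel w v ↔ G.adj v w) := fun w hw => by
      rw [rel_ne hw]
      exact ⟨G.symm, G.symm⟩
    by_cases m1 : v = x
    · subst m1
      right
      rintro ⟨h1, -⟩
      exact hp.dt (rel_symm _ _ (h1 (rel_symm _ _ hp.du)))
    by_cases m2 : v = s
    · subst m2
      left
      rintro ⟨h1, -⟩
      exact hp.ue (rel_symm _ _ (h1 hp.du))
    by_cases m3 : v = t
    · subst m3
      left
      rintro ⟨-, h1⟩
      exact hp.dt (h1 (rel_symm _ _ hp.te))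
    by_cases m4 : v = y
    · subst m4
      right
      rintro ⟨-, h1⟩
      exact hp.ue (h1 hp.te)
    have := hE v hv m1 m2 m3 m4
    rw [q x (Ne.symm m1), q s (Ne.symm m2), q t (Ne.symm m3), q y (Ne.symm m4)]
    exact this

theorem Ax.axB (h : Ax True G S) : AxB G.rel S := ⟨rel_symm, h.e2_rel, h.f2_rel, h.e4_rel⟩

/-- Theorem B. -/
theorem thmB (h : Ax True G S) (hne : S.Nonempty) :
    (∃ c ∈ S, G.sg c ∧ ∀ v ∈ S, v ≠ c → G.adj c v) ∨
    (∃ c ∈ S, ¬ G.sg c ∧ ∀ v ∈ S, v ≠ c → ¬ G.adj c v) ∨ G.LeafPair S ∨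
    ∃ x ∈ S, ∃ s ∈ S, ∃ t ∈ S, ∃ y ∈ S, G.P4 x s t y ∧ ¬ G.sg x ∧ G.sg s ∧ G.sg t ∧ ¬ G.sg y ∧
      ∀ v ∈ S, v = x ∨ v = s ∨ v = t ∨ v = y := by
  rcases mainB h.axB hne with ⟨c, hc, h1⟩ | ⟨c, hc, h1⟩ | ⟨a, ha, b, hb, hab, h1, h2, h3⟩ |
    ⟨x, hx, s, hs, t, ht, y, hy, hp, h1⟩
  · exact Or.inl ⟨c, hc, rel_self.1 (h1 c hc), fun v hv hvc => (rel_ne hvc.symm).1 (h1 v hv)⟩
  · exact Or.inr (Or.inl ⟨c, hc, fun h2 => h1 c hc (rel_self.2 h2),
      fun v hv _ h2 => h1 v hv (Or.inl h2)⟩)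
  · refine Or.inr (Or.inr (Or.inl ⟨a, ha, b, hb, hab, ?_, ?_, ?_⟩))
    · intro v hv hva hvb
      have := h1 v hv hva hvb
      rwa [rel_ne hva.symm, rel_ne hvb.symm] at this
    · rwa [rel_ne hab, rel_self, rel_self] at h2
    · rwa [rel_ne hab, rel_self, rel_self] at h3
  · obtain ⟨hp4, sx, ss, st, sy⟩ := rel_p4 hp
    exact Or.inr (Or.inr (Or.inr ⟨x, hx, s, hs, t, ht, y, hy, hp4, sx, ss, st, sy, h1⟩))

end SG

end H48CP
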